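import Pool.Agent.H49CT.Fin

/-! The curves `y ^ 2 = x ^ 3 + D ^ 2`: for almost all `D ≤ N` the only integral points with
`|x| ≤ exp (N ^ (1 / 10000))` are the torsion points `(0, ± D)`. -/

set_option autoImplicit false

namespace Pool.Agent.Results.MP_a1107e_nt.CubicTwistsThreeTorsion

theorem result : ∃ C : ℝ, ∀ N : ℕ, 1 ≤ N →
    (({D : ℕ | 1 ≤ D ∧ D ≤ N ∧ ∃ x y : ℤ, x ≠ 0 ∧ y ^ 2 = x ^ 3 + (D : ℤ) ^ 2 ∧
      |(x : ℝ)| ≤ Real.exp ((N : ℝ) ^ ((1 : ℝ) / 10000))}.ncard : ℕ) : ℝ) ≤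
      C * (N : ℝ) ^ ((199 : ℝ) / 200) :=
  Pool.Agent.H49CT.main

end Pool.Agent.Results.MP_a1107e_nt.CubicTwistsThreeTorsion
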