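import Pool.Agent.H83HL.Fin2

/-!
# MP_a1107e_nt (Hall–Lang): integral points with `R ^ 2 ≤ x ≤ R ^ 6` occur on the curves of height
`R` with exactly the expected order of magnitude, and few curves have one with `R ^ 6 ≤ x ≤ R ^ 18`

The height is at most `R` when `|A| ≤ R ^ 2` and `|B| ≤ R ^ 3`. There are of order `R ^ 5` curves,
and the number of their integral points with `X ≤ x ≤ Y` is compared with `R ^ 5 / √X`.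
-/

set_option autoImplicit false

namespace Pool.Agent.Results.MP_a1107e_nt.ExpectedNumberOfPoints

theorem result :
    ∃ c C : ℝ, 0 < c ∧ 0 < C ∧ ∀ R X Y : ℝ, 1 ≤ R → R ^ 2 ≤ X → X ≤ Y →
      {P : ℤ × ℤ × ℤ × ℤ | |(P.1 : ℝ)| ≤ R ^ 2 ∧ |(P.2.1 : ℝ)| ≤ R ^ 3 ∧
        4 * P.1 ^ 3 + 27 * P.2.1 ^ 2 ≠ 0 ∧
        P.2.2.2 ^ 2 = P.2.2.1 ^ 3 + P.1 * P.2.2.1 + P.2.1 ∧
        X ≤ (P.2.2.1 : ℝ) ∧ (P.2.2.1 : ℝ) ≤ Y}.Finite ∧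
      ({P : ℤ × ℤ × ℤ × ℤ | |(P.1 : ℝ)| ≤ R ^ 2 ∧ |(P.2.1 : ℝ)| ≤ R ^ 3 ∧
        4 * P.1 ^ 3 + 27 * P.2.1 ^ 2 ≠ 0 ∧
        P.2.2.2 ^ 2 = P.2.2.1 ^ 3 + P.1 * P.2.2.1 + P.2.1 ∧
        X ≤ (P.2.2.1 : ℝ) ∧ (P.2.2.1 : ℝ) ≤ Y}.ncard : ℝ) ≤
        C * (R ^ 5 / √X + (R ^ 2 + √(R * √Y)) * (1 + Real.log Y) ^ 5) ∧
      (X ≤ c * R ^ 6 → 2 * X ≤ Y → c * (R ^ 5 / √X) ≤
        ({P : ℤ × ℤ × ℤ × ℤ | |(P.1 : ℝ)| ≤ R ^ 2 ∧ |(P.2.1 : ℝ)| ≤ R ^ 3 ∧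
        4 * P.1 ^ 3 + 27 * P.2.1 ^ 2 ≠ 0 ∧
        P.2.2.2 ^ 2 = P.2.2.1 ^ 3 + P.1 * P.2.2.1 + P.2.1 ∧
        X ≤ (P.2.2.1 : ℝ) ∧ (P.2.2.1 : ℝ) ≤ Y}.ncard : ℝ)) :=
  Pool.Agent.H83HL.main2

end Pool.Agent.Results.MP_a1107e_nt.ExpectedNumberOfPoints
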