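import Pool.Agent.H49TW.Main

/-!
# The Hall-Lang conjecture for almost all quadratic twists of a curve with rational two-torsion

Let `E : y ^ 2 = x ^ 3 + a x + b` be an elliptic curve such that `x ^ 3 + a x + b` has three integral
roots, and let `E_D : y ^ 2 = x ^ 3 + a D ^ 2 x + b D ^ 3` be its quadratic twist by the squarefree
integer `D`. The points with `y = 0` are integral and have `|x| ≤ C |D|`. We show that the number of
the `D` with `|D| ≤ N` such that `E_D` has any other integral point with `|x| ≤ B` is at most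

`C N ^ (5 / 6) (1 + log N) ^ 3 (1 + log (N B)) ^ 2`, for all `N, B ≥ 1`.

For example, for all but `N ^ (1 - δ)` of the `D`, for some `δ > 0`, all the integral points with
`y ≠ 0` have `|x| > exp (N ^ (1 / 13))`.

Proof. `x - e_i D = d₁ d₂ d₃ α_i x_i ^ 2`, where `α₁ = ± c₂ c₃ d₁`, ..., `D = d₁ d₂ d₃ m` and the `c_i`
divide the differences of the roots. So `α₁ x₁ ^ 2 - α₂ x₂ ^ 2 = (e₂ - e₁) m` etc. If some `d_i` is
large, say `d₃`, we fix `d₁, d₂, m` and count the solutions `(x₁, x₂)` of the first equation; then `d₃` is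
the squarefree part of a known number. If all the `d_i` are small, we fix them, and the `(x₁, x₂, x₃)`
are points of a fixed conic which lie near a real point that depends on the `d_i` only; two such points
with different `m` are separated by the bilinear form of the conic.
-/

set_option autoImplicit false

namespace Pool.Agent.Results.MP_a1107e_nt.SplitQuadraticTwists

open Pool.Agent.H49TW

/-- from the roots to the coefficients -/
lemma roots {a b e₁ e₂ e₃ : ℤ} (h : ∀ t : ℤ, t ^ 3 + a * t + b = (t - e₁) * (t - e₂) * (t - e₃)) :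
    e₁ + e₂ + e₃ = 0 ∧ a = e₁ * e₂ + e₁ * e₃ + e₂ * e₃ ∧ b = -(e₁ * e₂ * e₃) := by
  have h0 := h 0
  have h1 := h 1
  have h2 := h (-1)
  refine ⟨?_, ?_, ?_⟩
  · linarith
  · linarith
  · linarith

theorem result (a b : ℤ) (hab : 4 * a ^ 3 + 27 * b ^ 2 ≠ 0)
    (hs : ∃ e₁ e₂ e₃ : ℤ, ∀ t : ℤ, t ^ 3 + a * t + b = (t - e₁) * (t - e₂) * (t - e₃)) :
    ∃ C : ℝ, ∀ N B : ℕ, 1 ≤ N → 1 ≤ B →
      {D : ℤ | Squarefree D ∧ |D| ≤ N ∧ ∃ x y : ℤ, y ≠ 0 ∧ |x| ≤ B ∧
        y ^ 2 = x ^ 3 + a * D ^ 2 * x + b * D ^ 3}.Finite ∧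
      ({D : ℤ | Squarefree D ∧ |D| ≤ N ∧ ∃ x y : ℤ, y ≠ 0 ∧ |x| ≤ B ∧
        y ^ 2 = x ^ 3 + a * D ^ 2 * x + b * D ^ 3}.ncard : ℝ) ≤
        C * (N : ℝ) ^ ((5 : ℝ) / 6) * (1 + Real.log N) ^ 3 * (1 + Real.log (N * B)) ^ 2 := by
  obtain ⟨e₁, e₂, e₃, he⟩ := hs
  obtain ⟨h0, ha, hb⟩ := roots he
  have hd : 4 * a ^ 3 + 27 * b ^ 2 = -((e₁ - e₂) * (e₁ - e₃) * (e₂ - e₃)) ^ 2 := by
    have : e₃ = -e₁ - e₂ := by linarith
    rw [ha, hb, this]
    ring
  have h12 : e₁ ≠ e₂ := by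
    rintro rfl; apply hab; rw [hd]; ring
  have h13 : e₁ ≠ e₃ := by
    rintro rfl; apply hab; rw [hd]; ring
  have h23 : e₂ ≠ e₃ := by
    rintro rfl; apply hab; rw [hd]; ring
  obtain ⟨C, hC, key⟩ := count_le h12 h13 h23
  obtain ⟨E, hE⟩ : ∃ E, E = e₁.natAbs + e₂.natAbs + e₃.natAbs := ⟨_, rfl⟩
  refine ⟨C * (2 * (1 + Real.log (1 + E))) ^ 2, fun N B hN hB => ?_⟩
  obtain ⟨S, hS⟩ : ∃ S, S = {D : ℤ | Squarefree D ∧ |D| ≤ N ∧ ∃ x y : ℤ, y ≠ 0 ∧ |x| ≤ B ∧
        y ^ 2 = x ^ 3 + a * D ^ 2 * x + b * D ^ 3} := ⟨_, rfl⟩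
  rw [← hS]
  have hfin : S.Finite := by
    apply (Set.finite_Icc (-(N : ℤ)) N).subset
    intro D hD
    rw [hS] at hD
    exact abs_le.1 hD.2.1
  refine ⟨hfin, ?_⟩
  have h1 := key N B hN hfin.toFinset (by
    intro D hD
    rw [Set.Finite.mem_toFinset, hS] at hD
    obtain ⟨g1, g2, x, y, g3, g4, g5⟩ := hD
    refine ⟨g1, ?_, x, y, g3, ?_, ?_⟩
    · rw [Int.abs_eq_natAbs] at g2
      exact_mod_cast g2
    · rw [Int.abs_eq_natAbs] at g4
      exact_mod_cast g4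
    · rw [g5, ha, hb]
      have : e₃ = -e₁ - e₂ := by linarith
      rw [this]
      ring)
  rw [← Set.ncard_eq_toFinset_card S hfin] at h1
  refine h1.trans ?_
  rw [← hE]
  have hN1 : (1 : ℝ) ≤ N := by exact_mod_cast hN
  have hB1 : (1 : ℝ) ≤ B := by exact_mod_cast hB
  have hNB : (1 : ℝ) ≤ N * B := by nlinarith
  have h2 := log_bound (n := B + E * N) (by omega)
  have h3 : Real.log ((B + E * N : ℕ) : ℝ) ≤ Real.log (1 + E) + Real.log (N * B) := by
    rw [← Real.log_mul (by positivity) (by positivity)]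
    apply Real.log_le_log
    · push_cast; positivity
    · push_cast
      have h4 : (0 : ℝ) ≤ E := by positivity
      have h5 : (B : ℝ) ≤ N * B := by nlinarith
      have h6 : (E : ℝ) * N ≤ E * (N * B) := by
        apply mul_le_mul_of_nonneg_left _ h4
        nlinarith
      linarith
  have hE1 : 0 ≤ Real.log (1 + (E : ℝ)) := Real.log_nonneg (by
    have : (0 : ℝ) ≤ E := by positivity
    linarith)
  have hNB0 : 0 ≤ Real.log (N * B : ℝ) := Real.log_nonneg hNB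
  have h4 : ((Nat.log 2 (B + E * N) + 1 : ℕ) : ℝ) ≤
      (2 * (1 + Real.log (1 + E))) * (1 + Real.log (N * B)) := by
    refine h2.trans ?_
    have : 0 ≤ Real.log (1 + (E : ℝ)) * Real.log (N * B : ℝ) := mul_nonneg hE1 hNB0
    linarith
  have h5 : ((Nat.log 2 (B + E * N) + 1 : ℕ) : ℝ) ^ 2 ≤
      ((2 * (1 + Real.log (1 + E))) * (1 + Real.log (N * B))) ^ 2 :=
    pow_le_pow_left₀ (by positivity) h4 2
  have hL : 0 ≤ Real.log (N : ℝ) := Real.log_nonneg hN1
  calc C * ((N : ℝ) ^ ((5 : ℝ) / 6) * (1 + Real.log N) ^ 3) *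
        ((Nat.log 2 (B + E * N) + 1 : ℕ) : ℝ) ^ 2 ≤
      C * ((N : ℝ) ^ ((5 : ℝ) / 6) * (1 + Real.log N) ^ 3) *
        ((2 * (1 + Real.log (1 + E))) * (1 + Real.log (N * B))) ^ 2 :=
        mul_le_mul_of_nonneg_left h5 (by positivity)
    _ = _ := by ring

end Pool.Agent.Results.MP_a1107e_nt.SplitQuadraticTwists
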