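import Pool.Agent.H90HL.F6

set_option autoImplicit false

/-!
# The Hall-Lang conjecture for curves with a point of order three over a number field

Let `T = (u, v)` be a point of order three of `y ^ 2 = x ^ 3 + A x + B` over a number field `K`. The
function `y - v - l (x - u)` of the tangent line at `T` has the divisor `3 (T) - 3 (O)`, and its value at
an integral point `P` is `1 / θ` times a cube of `K`, for a small `θ`: the class of `P` in the descent
by the dual of the isogeny of degree three with kernel generated by `T`. All integral points of all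
these curves are bounded by a power of `max (|A|, |B|)`; the exponent depends on the degree of `K` only, and the constant
on this degree, on `K` and `θ` by an elementary factor, and on a real number field `ℚ(g)`, `g` a sum of
cube roots of conjugates of `θ`.
-/

open NumberField IntermediateField

namespace Pool.Agent.Results.MP_a1107e_nt.ThreeTorsionOverNumberField

/-- `(u, v)` is a point of order three of the curve `y ^ 2 = x ^ 3 + A x + B`: a point of the curve where
the tangent line, of slope `l`, meets the curve three times. -/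
def OrderThree {K : Type} [Field K] (A B : ℤ) (u v l : K) : Prop :=
  v ^ 2 = u ^ 3 + A * u + B ∧ 2 * v * l = 3 * u ^ 2 + A ∧ l ^ 2 = 3 * u

/-- `θ` is not zero and `θ κ` is a cube in `K`. -/
def Represents {K : Type} [Field K] [NumberField K] (θ : 𝓞 K) (κ : K) : Prop :=
  θ ≠ 0 ∧ ∃ z : K, θ * κ = z ^ 3

/-- The real number `g` generates a field of degree at least three and is the sum, over the embeddings
`τ` of `K` into `ℂ`, of the numbers `τ(b) w_τ`, where `b` is in `S` and `w_τ` is a cube root of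
`τ(θ)`. -/
def CubeSum {K : Type} [Field K] [NumberField K] (S : Finset (𝓞 K)) (θ : 𝓞 K) (g : ℝ) : Prop :=
  3 ≤ Module.finrank ℚ ℚ⟮g⟯ ∧ ∃ b ∈ S, ∃ w : (K →+* ℂ) → ℂ,
    (∀ τ, w τ ^ 3 = τ θ) ∧ (g : ℂ) = ∑ τ : K →+* ℂ, τ b * w τ

/-- **Hall-Lang with one constant for each real number field, for all integral points of all curves
with a point `(u, v)` of order three over a number field `K`.** Here `C` depends on the degree `n` of
`K` only, `D` and `S` depend on `K` only, and `c` on `n` and on the real number field `ℚ(g)` only. The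
second part says that every integral point has a small representative `θ`. -/
theorem result :
    ∃ (C : ℕ → ℕ) (c : ℕ → IntermediateField ℚ ℝ → ℕ), ∀ (K : Type) [Field K] [NumberField K] (n : ℕ),
      Module.finrank ℚ K = n → ∃ (D : ℕ) (S : Finset (𝓞 K)), ∀ (A B x y : ℤ) (u v l : K),
      4 * A ^ 3 + 27 * B ^ 2 ≠ 0 → OrderThree A B u v l → y ^ 2 = x ^ 3 + A * x + B →
      (∀ (θ : 𝓞 K) (Q : ℕ), Represents θ (y - v - l * (x - u)) → (∀ τ : K →+* ℂ, ‖τ θ‖ ≤ Q) →
        max x.natAbs y.natAbs ≤ (C n * (D * Q * max A.natAbs B.natAbs)) ^ C n ∨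
        ∃ g : ℝ, CubeSum S θ g ∧
          max x.natAbs y.natAbs ≤ (c n ℚ⟮g⟯ * (D * Q * max A.natAbs B.natAbs)) ^ C n) ∧
      ∃ θ : 𝓞 K, Represents θ (y - v - l * (x - u)) ∧
        ∀ τ : K →+* ℂ, ‖τ θ‖ ≤ ((D * max A.natAbs B.natAbs) ^ C n : ℕ) := by
  obtain ⟨C, c, h⟩ := Pool.Agent.H90HL.main
  refine ⟨C, c, ?_⟩
  rintro K _ _ _ rfl
  obtain ⟨D, S, h⟩ := h K
  refine ⟨D, S, ?_⟩
  rintro A B x y u v l hΔ ⟨h1, h2, h3⟩ hxy
  have hH : 1 ≤ max A.natAbs B.natAbs := by
    by_contra hcon
    have hA : A = 0 := by omega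
    have hB : B = 0 := by omega
    apply hΔ
    rw [hA, hB]
    norm_num
  obtain ⟨h4, θ, z, h5, h6, h7⟩ := h A B x y u v l (max A.natAbs B.natAbs) hH (le_max_left _ _)
    (le_max_right _ _) ⟨h1, h2, h3⟩ hΔ hxy
  refine ⟨?_, θ, ⟨h5, z, h6⟩, h7⟩
  rintro θ Q ⟨hθ, z, hz⟩ hQ
  rcases h4 θ z Q hθ hz hQ with ⟨h8, h9⟩ | ⟨g, h8, h9, h10⟩
  · exact Or.inl (max_le h8 h9)
  · exact Or.inr ⟨g, h8, max_le h9 h10⟩

end Pool.Agent.Results.MP_a1107e_nt.ThreeTorsionOverNumberField
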